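import Pool.Agent.H17.CX.Targets

/-!
# MP_70ba79_ag, board cnx_modules, module VAN
helper49
-/

set_option autoImplicit false

open MvPolynomial SC Pool.Agent.H27.LV
open Pool.Agent.H92.SF Pool.Agent.H3.SF Pool.Agent.H17.SD Pool.Agent.H17.SFG Pool.Agent.H17.CX

namespace Pool.Agent.H49.CNX

theorem pf_VAN (hLOA : T_LOA) (hRGF : T_RGF) : T_VAN := by
  intro k F σ _ _ _ _ _ _ X dd m G g Q hS hC t j a p b ha hR hb
  obtain ⟨d, e, p1, b1, hp1, hb1, hR1, -, hpb⟩ :=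
    hRGF k F σ X m G g Q hS.cone.hmg hS.hG hS.G0 hC t j a p b ha hR
  have hQ := hC.prime
  have hb1Q : b1 ∈ Q := by
    have h1 : p * b1 - p1 * b ∈ Q := hC.ker _ (by rw [map_sub, hpb, sub_self])
    have h2 : p * b1 ∈ Q := by
      have h3 := Q.add_mem h1 (Q.mul_mem_left p1 hb)
      rwa [sub_add_cancel] at h3
    exact (hQ.mem_or_mem h2).resolve_left hR.1
  obtain ⟨s, hs0, hs⟩ := hC.pt
  obtain ⟨d2, p2, q, -, -, hps, hpq⟩ := hLOA k F σ X dd m G g Q hS hC e b1 hb1 hb1Q s hs0 hs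
  have hp2 : p2 ∉ Q := fun h => hps (hs _ h)
  refine ⟨p2 * p1, q, fun h => (hQ.mem_or_mem h).elim hp2 hR1.1, ?_⟩
  have h4 := hR1.2
  simp only [map_mul, map_pow] at h4 hpq ⊢
  rw [mul_assoc, h4, ← mul_assoc, hpq, pow_succ]
  ring

end Pool.Agent.H49.CNX
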